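import Pool.Agent.Ono.Ideals

/-!
Values of the Euler-Rabinowitsch polynomial with many prime factors.
-/

set_option autoImplicit false

open NumberField Module Ideal ArithmeticFunction

namespace Ono

variable {K : Type*} [Field K] [NumberField K] {ω : 𝓞 K}

theorem exists_inv {r M : ℤ} (h : IsCoprime r M) : ∃ u : ℤ, M ∣ r * u - 1 := by
  obtain ⟨a, b, hab⟩ := h
  exact ⟨a, -b, by linear_combination hab⟩

theorem pick_half {r p b : ℤ} (hp : p % 2 = 1) (hp0 : 0 < p) (h : IsCoprime r p) :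
    ∃ y : ℤ, p ∣ r * y - b ∧ 2 * |y| < p := by
  obtain ⟨u, hu⟩ := exists_inv h
  have h1 : p ∣ r * ((u * b) % p) - b := by
    have h2 := Int.emod_add_mul_ediv (u * b) p
    have h3 : r * ((u * b) % p) - b = (r * u - 1) * b - p * (r * ((u * b) / p)) := by
      linear_combination r * h2
    rw [h3]
    exact dvd_sub (hu.mul_right b) (dvd_mul_right _ _)
  have h2 := Int.emod_nonneg (u * b) hp0.ne'
  have h3 := Int.emod_lt_of_pos (u * b) hp0
  rcases lt_or_ge (2 * ((u * b) % p)) p with h4 | h4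
  · refine ⟨(u * b) % p, h1, ?_⟩
    rw [abs_of_nonneg h2]
    exact h4
  · refine ⟨(u * b) % p - p, ?_, ?_⟩
    · have : r * ((u * b) % p - p) - b = (r * ((u * b) % p) - b) - p * r := by ring
      rw [this]
      exact dvd_sub h1 (dvd_mul_right _ _)
    · rw [abs_of_neg (by linarith)]
      omega

theorem pick_odd {r p b : ℤ} (hp : p % 2 = 1) (hp0 : 0 < p) (h : IsCoprime r p) :
    ∃ y : ℤ, p ∣ r * y - b ∧ |y| ≤ p ∧ y % 2 = 1 := by
  obtain ⟨y, h1, h2⟩ := pick_half (b := b) hp hp0 h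
  rcases abs_cases y with ⟨h3, h4⟩ | ⟨h3, h4⟩
  · rcases Int.emod_two_eq_zero_or_one y with h5 | h5
    · refine ⟨y - p, ?_, ?_, by omega⟩
      · have : r * (y - p) - b = (r * y - b) - p * r := by ring
        rw [this]
        exact dvd_sub h1 (dvd_mul_right _ _)
      · rw [abs_of_neg (by omega)]
        omega
    · exact ⟨y, h1, by omega, h5⟩
  · rcases Int.emod_two_eq_zero_or_one y with h5 | h5
    · refine ⟨y + p, ?_, ?_, by omega⟩
      · have : r * (y + p) - b = (r * y - b) + p * r := by ring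
        rw [this]
        exact dvd_add h1 (dvd_mul_right _ _)
      · rw [abs_of_pos (by omega)]
        omega
    · exact ⟨y, h1, by omega, h5⟩

theorem one_le_Om {k : ℕ} (h : 2 ≤ k) : 1 ≤ cardFactors k :=
  cardFactors_pos_iff_one_lt.2 (by omega)

/-- Case `Δ = -4 m` with `m` odd. -/
theorem caseA {m : ℕ} (h : QD K 0 (m : ℤ) ω) (hf : Fund 0 (m : ℤ)) (hm : m % 2 = 1)
    {I : Ideal (𝓞 K)} {p : ℕ} (hI : Least I p) {P r : ℕ} (hPr : m = P * r) (hP : P.Prime)
    (hlt : p < P) : ∃ x : ℕ, x + 1 ≤ m ∧ cardFactors m + 2 ≤ cardFactors (x ^ 2 + m) := by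
  have hp := hI.prime
  have hnd := hI.not_dvd h hf
  have hpZ : Prime (p : ℤ) := Nat.prime_iff_prime_int.1 hp
  have hp2 : p ≠ 2 := by
    rintro rfl
    apply hnd
    exact ⟨-(2 * (m : ℤ)), by push_cast; ring⟩
  have hpodd : (p : ℤ) % 2 = 1 := by
    have := hp.eq_two_or_odd
    omega
  have hpr : ¬ (p : ℤ) ∣ (r : ℤ) := by
    rintro ⟨c, hc⟩
    apply hnd
    refine ⟨-(4 * (P : ℤ) * c), ?_⟩
    rw [hPr]
    push_cast
    rw [hc]
    ring
  have hcop : IsCoprime (r : ℤ) (p : ℤ) := ((Prime.coprime_iff_not_dvd hpZ).2 hpr).symm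
  obtain ⟨b, hb⟩ := exists_int hp hI.norm ω
  obtain ⟨y, hy1, hy2, hy3⟩ := pick_odd (b := b) hpodd (by exact_mod_cast hp.pos) hcop
  have hmem : ((r * y : ℤ) : 𝓞 K) + ω ∈ I := shift_mem hI.norm hb hy1
  have hdv := h.norm_dvd hmem
  rw [hI.norm] at hdv
  have hF : ((r : ℤ) * y) ^ 2 + 0 * ((r : ℤ) * y) + (m : ℤ) = r * (r * y ^ 2 + P) := by
    rw [hPr]
    push_cast
    ring
  rw [hF] at hdv
  have hd1 : (p : ℤ) ∣ r * y ^ 2 + P := (hpZ.dvd_or_dvd hdv).resolve_left hpr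
  have hodd : m % 2 = 1 := hm
  rw [hPr, Nat.odd_iff.symm, Nat.odd_mul] at hodd
  obtain ⟨⟨a1, ha1⟩, ⟨a2, ha2⟩⟩ := hodd
  have hd2 : (2 : ℤ) ∣ r * y ^ 2 + P := by
    have h3 : y = 2 * (y / 2) + 1 := by omega
    refine ⟨a2 + a1 + 1 + (4 * a2 + 2) * ((y / 2) ^ 2 + (y / 2)), ?_⟩
    rw [ha1, ha2]
    push_cast
    generalize y / 2 = e at h3
    rw [h3]
    ring
  have hcop2 : IsCoprime (2 : ℤ) (p : ℤ) := by
    refine ⟨-((p : ℤ) / 2), 1, ?_⟩
    omega
  obtain ⟨k, hk⟩ := hcop2.mul_dvd hd2 hd1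
  have hPpos : (0 : ℤ) < P := by exact_mod_cast hP.pos
  have hrpos : 0 < r := by
    rcases Nat.eq_zero_or_pos r with h0 | h0
    · rw [h0] at ha2
      omega
    · exact h0
  have hrZ : (0 : ℤ) < r := by exact_mod_cast hrpos
  have hGpos : 0 < (r : ℤ) * y ^ 2 + P := by positivity
  have hppos : (0 : ℤ) < p := by exact_mod_cast hp.pos
  have hkpos : 0 < k := by
    rw [hk] at hGpos
    exact pos_of_mul_pos_right hGpos (by positivity)
  lift k to ℕ using hkpos.le
  have hxF : ((r : ℤ) * y).natAbs ^ 2 + m = r * (2 * p * k) := by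
    zify
    rw [sq_abs]
    have h4 := hF
    rw [hk] at h4
    linarith
  have hval : (((r : ℤ) * y) ^ 2 + 0 * ((r : ℤ) * y) + (m : ℤ)).natAbs = p * (2 * r * k) := by
    rw [hF, hk]
    have : (r : ℤ) * (2 * p * k) = ((p * (2 * r * k) : ℕ) : ℤ) := by
      push_cast
      ring
    rw [this, Int.natAbs_natCast]
  have hne : ((r : ℤ) * y) ^ 2 + 0 * ((r : ℤ) * y) + (m : ℤ) ≠ 0 := by
    rw [hF]
    positivity
  have hk1 : k ≠ 1 := by
    rintro rfl
    refine hI.not_ram h hf hne hmem (2 * r) (by rw [hval, mul_one]) ?_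
    intro l hl hdl
    rcases (Nat.Prime.dvd_mul hl).1 hdl with h5 | h5
    · have h6 : (l : ℤ) ∣ 2 := by exact_mod_cast h5
      have h7 : (0 : ℤ) ^ 2 - 4 * (m : ℤ) = 2 * (-(2 * (m : ℤ))) := by ring
      rw [h7]
      exact h6.mul_right _
    · have h6 : (l : ℤ) ∣ (r : ℤ) := by exact_mod_cast h5
      have h7 : (0 : ℤ) ^ 2 - 4 * (m : ℤ) = r * (-(4 * (P : ℤ))) := by
        rw [hPr]
        push_cast
        ring
      rw [h7]
      exact h6.mul_right _
  have hk2 : 2 ≤ k := by omega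
  refine ⟨((r : ℤ) * y).natAbs, ?_, ?_⟩
  · rw [Int.natAbs_mul, Int.natAbs_natCast]
    have h7 : (y.natAbs : ℤ) = |y| := Int.natCast_natAbs y
    have h8 : y.natAbs ≤ P - 1 := by omega
    have h9 : r * y.natAbs ≤ r * (P - 1) := Nat.mul_le_mul_left r h8
    have h10 : r * (P - 1) + r = m := by
      rw [hPr]
      have : P = P - 1 + 1 := by omega
      rw [this]
      simp only [Nat.add_sub_cancel]
      ring
    omega
  · have hk0 : k ≠ 0 := by omega
    have h2p : 2 * p ≠ 0 := mul_ne_zero two_ne_zero hp.ne_zero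
    rw [hxF, cardFactors_mul hrpos.ne' (mul_ne_zero h2p hk0), cardFactors_mul h2p hk0,
      cardFactors_mul two_ne_zero hp.ne_zero, cardFactors_apply_prime Nat.prime_two,
      cardFactors_apply_prime hp, hPr, cardFactors_mul hP.ne_zero hrpos.ne',
      cardFactors_apply_prime hP]
    have := one_le_Om hk2
    omega

/-- Case `Δ = -4 m` with `m` even. -/
theorem caseB {m : ℕ} (h : QD K 0 (m : ℤ) ω) (hf : Fund 0 (m : ℤ)) (hm : 0 < m)
    {I : Ideal (𝓞 K)} {p : ℕ} (hI : Least I p) {P r : ℕ} (hPr : m = P * r) (hP : P.Prime)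
    (hlt : p < 2 * P) : ∃ x : ℕ, x + 1 ≤ m ∧ cardFactors m + 1 ≤ cardFactors (x ^ 2 + m) := by
  have hp := hI.prime
  have hnd := hI.not_dvd h hf
  have hpZ : Prime (p : ℤ) := Nat.prime_iff_prime_int.1 hp
  have hp2 : p ≠ 2 := by
    rintro rfl
    apply hnd
    exact ⟨-(2 * (m : ℤ)), by push_cast; ring⟩
  have hpodd : (p : ℤ) % 2 = 1 := by
    have := hp.eq_two_or_odd
    omega
  have hpr : ¬ (p : ℤ) ∣ (r : ℤ) := by
    rintro ⟨c, hc⟩
    apply hnd
    refine ⟨-(4 * (P : ℤ) * c), ?_⟩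
    rw [hPr]
    push_cast
    rw [hc]
    ring
  have hcop : IsCoprime (r : ℤ) (p : ℤ) := ((Prime.coprime_iff_not_dvd hpZ).2 hpr).symm
  obtain ⟨b, hb⟩ := exists_int hp hI.norm ω
  obtain ⟨y, hy1, hy2⟩ := pick_half (b := b) hpodd (by exact_mod_cast hp.pos) hcop
  have hmem : ((r * y : ℤ) : 𝓞 K) + ω ∈ I := shift_mem hI.norm hb hy1
  have hdv := h.norm_dvd hmem
  rw [hI.norm] at hdv
  have hF : ((r : ℤ) * y) ^ 2 + 0 * ((r : ℤ) * y) + (m : ℤ) = r * (r * y ^ 2 + P) := by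
    rw [hPr]
    push_cast
    ring
  rw [hF] at hdv
  have hd1 : (p : ℤ) ∣ r * y ^ 2 + P := (hpZ.dvd_or_dvd hdv).resolve_left hpr
  obtain ⟨k, hk⟩ := hd1
  have hPpos : (0 : ℤ) < P := by exact_mod_cast hP.pos
  have hrpos : 0 < r := by
    rcases Nat.eq_zero_or_pos r with h0 | h0
    · rw [h0, mul_zero] at hPr
      omega
    · exact h0
  have hrZ : (0 : ℤ) < r := by exact_mod_cast hrpos
  have hGpos : 0 < (r : ℤ) * y ^ 2 + P := by positivity
  have hppos : (0 : ℤ) < p := by exact_mod_cast hp.pos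
  have hkpos : 0 < k := by
    rw [hk] at hGpos
    exact pos_of_mul_pos_right hGpos hppos.le
  lift k to ℕ using hkpos.le
  have hxF : ((r : ℤ) * y).natAbs ^ 2 + m = r * (p * k) := by
    zify
    rw [sq_abs]
    have h4 := hF
    rw [hk] at h4
    linarith
  have hval : (((r : ℤ) * y) ^ 2 + 0 * ((r : ℤ) * y) + (m : ℤ)).natAbs = p * (r * k) := by
    rw [hF, hk]
    have : (r : ℤ) * (p * k) = ((p * (r * k) : ℕ) : ℤ) := by
      push_cast
      ring
    rw [this, Int.natAbs_natCast]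
  have hne : ((r : ℤ) * y) ^ 2 + 0 * ((r : ℤ) * y) + (m : ℤ) ≠ 0 := by
    rw [hF]
    positivity
  have hk1 : k ≠ 1 := by
    rintro rfl
    refine hI.not_ram h hf hne hmem r (by rw [hval, mul_one]) ?_
    intro l hl hdl
    have h6 : (l : ℤ) ∣ (r : ℤ) := by exact_mod_cast hdl
    have h7 : (0 : ℤ) ^ 2 - 4 * (m : ℤ) = r * (-(4 * (P : ℤ))) := by
      rw [hPr]
      push_cast
      ring
    rw [h7]
    exact h6.mul_right _
  have hk2 : 2 ≤ k := by omega
  refine ⟨((r : ℤ) * y).natAbs, ?_, ?_⟩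
  · rw [Int.natAbs_mul, Int.natAbs_natCast]
    have h7 : (y.natAbs : ℤ) = |y| := Int.natCast_natAbs y
    have h8 : y.natAbs ≤ P - 1 := by omega
    have h9 : r * y.natAbs ≤ r * (P - 1) := Nat.mul_le_mul_left r h8
    have h10 : r * (P - 1) + r = m := by
      rw [hPr]
      have hP1 := hP.pos
      have : P = P - 1 + 1 := by omega
      rw [this]
      simp only [Nat.add_sub_cancel]
      ring
    omega
  · rw [hxF, cardFactors_mul hrpos.ne' (mul_ne_zero hp.ne_zero (by omega)),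
      cardFactors_mul hp.ne_zero (by omega), cardFactors_apply_prime hp, hPr,
      cardFactors_mul hP.ne_zero hrpos.ne', cardFactors_apply_prime hP]
    have := one_le_Om hk2
    omega

/-- Case `Δ = -m` odd, `4 n = 1 + m`. -/
theorem caseC {m n : ℕ} (h : QD K 1 (n : ℤ) ω) (hf : Fund 1 (n : ℤ)) (hn : 4 * n = 1 + m)
    {I : Ideal (𝓞 K)} {p : ℕ} (hI : Least I p) {P r : ℕ} (hPr : m = P * r) (hP : P.Prime)
    (hlt : 2 * p ≤ P) :
    ∃ x : ℕ, 4 * (x + 1) ≤ m ∧ cardFactors m + 1 ≤ cardFactors (x ^ 2 + x + n) := by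
  have hp := hI.prime
  have hdisc : (1 : ℤ) ^ 2 - 4 * (n : ℤ) = -(m : ℤ) := by
    have : (4 : ℤ) * n = 1 + m := by exact_mod_cast hn
    linarith
  have hnd := hI.not_dvd h hf
  rw [hdisc] at hnd
  have hpZ : Prime (p : ℤ) := Nat.prime_iff_prime_int.1 hp
  have hpm : ¬ (p : ℤ) ∣ (m : ℤ) := fun h => hnd (h.neg_right)
  have hpr : ¬ (p : ℤ) ∣ (r : ℤ) := by
    rintro ⟨c, hc⟩
    apply hpm
    refine ⟨(P : ℤ) * c, ?_⟩
    rw [hPr]
    push_cast
    rw [hc]
    ring
  have hpP : ¬ (p : ℤ) ∣ (P : ℤ) := by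
    rintro ⟨c, hc⟩
    apply hpm
    refine ⟨c * r, ?_⟩
    rw [hPr]
    push_cast
    rw [hc]
    ring
  have hmodd : m % 2 = 1 := by omega
  have hodd := hmodd
  rw [hPr, Nat.odd_iff.symm, Nat.odd_mul] at hodd
  obtain ⟨⟨a1, ha1⟩, ⟨a2, ha2⟩⟩ := hodd
  have hrpos : 0 < r := by omega
  have hrZ : (0 : ℤ) < r := by exact_mod_cast hrpos
  have hppos : (0 : ℤ) < p := by exact_mod_cast hp.pos
  have hcop : IsCoprime (r : ℤ) (p : ℤ) := ((Prime.coprime_iff_not_dvd hpZ).2 hpr).symm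
  have hcop2 : IsCoprime (r : ℤ) (2 : ℤ) := by
    refine ⟨1, -(a2 : ℤ), ?_⟩
    rw [ha2]
    push_cast
    ring
  have hcop3 : IsCoprime (r : ℤ) (2 * (p : ℤ)) := hcop2.mul_right hcop
  obtain ⟨b, hb⟩ := exists_int hp hI.norm ω
  obtain ⟨u, hu⟩ := exists_inv hcop3
  -- the odd number Y
  obtain ⟨Y, hY1, hY2⟩ : ∃ Y : ℤ, 2 * (p : ℤ) ∣ r * Y - (2 * b + 1) ∧ |Y| ≤ p := by
    have hM : (0 : ℤ) < 2 * p := by positivity
    set c := u * (2 * b + 1) with hc
    have h1 : 2 * (p : ℤ) ∣ r * (c % (2 * p)) - (2 * b + 1) := by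
      have h2 := Int.emod_add_mul_ediv c (2 * p)
      have h3 : r * (c % (2 * p)) - (2 * b + 1) = (r * u - 1) * (2 * b + 1) -
          2 * p * (r * (c / (2 * p))) := by
        rw [hc] at h2 ⊢
        linear_combination r * h2
      rw [h3]
      exact dvd_sub (hu.mul_right _) (dvd_mul_right _ _)
    have h2 := Int.emod_nonneg c hM.ne'
    have h3 := Int.emod_lt_of_pos c hM
    rcases le_or_gt (c % (2 * p)) p with h4 | h4
    · exact ⟨c % (2 * p), h1, by rw [abs_of_nonneg h2]; exact h4⟩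
    · refine ⟨c % (2 * p) - 2 * p, ?_, ?_⟩
      · have : r * (c % (2 * p) - 2 * p) - (2 * b + 1) =
            (r * (c % (2 * p)) - (2 * b + 1)) - 2 * p * r := by ring
        rw [this]
        exact dvd_sub h1 (dvd_mul_right _ _)
      · rw [abs_of_neg (by linarith)]
        linarith
  obtain ⟨e, he⟩ := hY1
  -- the point x
  have hx' : (r : ℤ) * Y = 2 * (b + p * e) + 1 := by linarith
  set x := b + p * e with hx
  have hmem : ((x : ℤ) : 𝓞 K) + ω ∈ I :=
    shift_mem hI.norm hb ⟨e, by rw [hx]; ring⟩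
  have hdv := h.norm_dvd hmem
  rw [hI.norm] at hdv
  have hn' : (4 : ℤ) * n = 1 + m := by exact_mod_cast hn
  have hF4 : 4 * (x ^ 2 + 1 * x + (n : ℤ)) = r * (r * Y ^ 2 + P) := by
    have h5 : (r : ℤ) * (r * Y ^ 2 + P) = (r * Y) ^ 2 + m := by
      rw [hPr]
      push_cast
      ring
    rw [h5, hx']
    linear_combination hn'
  have h4G : (4 : ℤ) ∣ r * Y ^ 2 + P := by
    have h6 : IsCoprime (4 : ℤ) (r : ℤ) := by
      have : (4 : ℤ) = 2 * 2 := by norm_num
      rw [this]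
      exact (hcop2.mul_right hcop2).symm
    exact h6.dvd_of_dvd_mul_left ⟨_, hF4.symm⟩
  obtain ⟨G, hG⟩ := h4G
  have hF : x ^ 2 + 1 * x + (n : ℤ) = r * G := by
    rw [hG] at hF4
    linarith
  rw [hF] at hdv
  have hd1 : (p : ℤ) ∣ G := (hpZ.dvd_or_dvd hdv).resolve_left hpr
  obtain ⟨k, hk⟩ := hd1
  have hPpos : (0 : ℤ) < P := by exact_mod_cast hP.pos
  have hGpos : 0 < G := by
    have : 0 < (r : ℤ) * Y ^ 2 + P := by positivity
    linarith
  have hkpos : 0 < k := by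
    rw [hk] at hGpos
    exact pos_of_mul_pos_right hGpos hppos.le
  lift k to ℕ using hkpos.le
  have hFval : x ^ 2 + 1 * x + (n : ℤ) = ((r * (p * k) : ℕ) : ℤ) := by
    rw [hF, hk]
    push_cast
    ring
  have hval : (x ^ 2 + 1 * x + (n : ℤ)).natAbs = p * (r * k) := by
    rw [hFval, Int.natAbs_natCast]
    ring
  have hne : x ^ 2 + 1 * x + (n : ℤ) ≠ 0 := by
    rw [hF]
    positivity
  have hk1 : k ≠ 1 := by
    rintro rfl
    refine hI.not_ram h hf hne hmem r (by rw [hval, mul_one]) ?_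
    intro l hl hdl
    have h6 : (l : ℤ) ∣ (r : ℤ) := by exact_mod_cast hdl
    have h7 : (1 : ℤ) ^ 2 - 4 * (n : ℤ) = r * (-(P : ℤ)) := by
      rw [hdisc, hPr]
      push_cast
      ring
    rw [h7]
    exact h6.mul_right _
  have hk2 : 2 ≤ k := by omega
  have hYne : |Y| ≠ p := by
    intro h8
    apply hpP
    have h9 : (p : ℤ) ∣ Y := by
      rw [← dvd_abs, h8]
    have h10 : (P : ℤ) = 4 * G - r * Y ^ 2 := by linarith
    rw [h10, hk]
    exact dvd_sub ((dvd_mul_right _ _).mul_left _)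
      (((dvd_pow h9 two_ne_zero)).mul_left _)
  have hYlt : |Y| + 1 ≤ p := by
    have := lt_of_le_of_ne hY2 hYne
    omega
  have hrange : 2 * |2 * x + 1| + 2 ≤ (m : ℤ) := by
    rw [← hx', abs_mul, abs_of_pos hrZ]
    have h8 : (r : ℤ) * (|Y| + 1) ≤ r * p := mul_le_mul_of_nonneg_left hYlt hrZ.le
    have h9 : (r : ℤ) * (2 * p) ≤ r * P :=
      mul_le_mul_of_nonneg_left (by exact_mod_cast hlt) hrZ.le
    have h10 : (m : ℤ) = r * P := by
      rw [hPr]
      push_cast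
      ring
    rw [h10]
    nlinarith
  have hOm : cardFactors m + 1 ≤ cardFactors (r * (p * k)) := by
    rw [cardFactors_mul hrpos.ne' (mul_ne_zero hp.ne_zero (by omega)),
      cardFactors_mul hp.ne_zero (by omega), cardFactors_apply_prime hp, hPr,
      cardFactors_mul hP.ne_zero hrpos.ne', cardFactors_apply_prime hP]
    have := one_le_Om hk2
    omega
  rcases le_or_gt 0 x with h0 | h0
  · lift x to ℕ using h0 with x0
    refine ⟨x0, ?_, ?_⟩
    · rw [abs_of_pos (by positivity)] at hrange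
      have : 4 * ((x0 : ℤ) + 1) ≤ m := by linarith
      exact_mod_cast this
    · have h11 : x0 ^ 2 + x0 + n = r * (p * k) := by
        have h12 : ((x0 ^ 2 + x0 + n : ℕ) : ℤ) = ((r * (p * k) : ℕ) : ℤ) := by
          rw [← hFval]
          push_cast
          ring
        exact_mod_cast h12
      rw [h11]
      exact hOm
  · obtain ⟨z, hz⟩ : ∃ z : ℕ, (z : ℤ) = -x - 1 := ⟨(-x - 1).toNat, by omega⟩
    refine ⟨z, ?_, ?_⟩
    · rw [abs_of_neg (by linarith)] at hrange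
      have : 4 * ((z : ℤ) + 1) ≤ m := by
        rw [hz]
        linarith
      exact_mod_cast this
    · have h11 : z ^ 2 + z + n = r * (p * k) := by
        have h12 : ((z ^ 2 + z + n : ℕ) : ℤ) = ((r * (p * k) : ℕ) : ℤ) := by
          rw [← hFval]
          push_cast
          rw [hz]
          ring
        exact_mod_cast h12
      rw [h11]
      exact hOm

/-- The bound for the least norm, `Δ` odd. -/
theorem boundC {m n : ℕ} (h : QD K 1 (n : ℤ) ω) (hn : 4 * n = 1 + m)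
    {I : Ideal (𝓞 K)} {p : ℕ} (hI : Least I p) : 3 * p ^ 2 ≤ m := by
  have hp := hI.prime
  obtain ⟨b, hb⟩ := exists_int hp hI.norm ω
  have hppos : (0 : ℤ) < p := by exact_mod_cast hp.pos
  obtain ⟨x, hx1, hx2⟩ : ∃ x : ℤ, (p : ℤ) ∣ x - b ∧ |2 * x + 1| ≤ p := by
    have h1 := Int.emod_nonneg b hppos.ne'
    have h2 := Int.emod_lt_of_pos b hppos
    have h3 := Int.emod_add_mul_ediv b p
    rcases le_or_gt (2 * (b % p) + 1) p with h4 | h4
    · refine ⟨b % p, ⟨-(b / p), by linear_combination h3⟩, ?_⟩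
      rw [abs_of_pos (by linarith)]
      exact h4
    · refine ⟨b % p - p, ⟨-(b / p) - 1, by linear_combination h3⟩, ?_⟩
      rw [abs_le]
      constructor <;> linarith
  have hmem := shift_mem hI.norm hb hx1
  have hn' : (4 : ℤ) * n = 1 + m := by exact_mod_cast hn
  have h4F : 4 * (x ^ 2 + 1 * x + (n : ℤ)) = (2 * x + 1) ^ 2 + m := by
    linear_combination hn'
  have hmpos : 0 ≤ (m : ℤ) := by positivity
  have hnpos : 0 < n := by omega
  have hpos : 0 < x ^ 2 + 1 * x + (n : ℤ) := by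
    have h5 : 0 < (2 * x + 1) ^ 2 := by
      have : (2 * x + 1) ≠ 0 := by omega
      positivity
    linarith
  have h6 := hI.sq_le h hpos.ne' hmem
  have h7 : ((p : ℤ)) ^ 2 ≤ x ^ 2 + 1 * x + (n : ℤ) := by
    have h8 : ((p ^ 2 : ℕ) : ℤ) ≤ ((x ^ 2 + 1 * x + (n : ℤ)).natAbs : ℤ) := by exact_mod_cast h6
    rw [Int.natAbs_of_nonneg hpos.le] at h8
    push_cast at h8
    exact h8
  have h9 : (2 * x + 1) ^ 2 ≤ (p : ℤ) ^ 2 := by
    rw [← sq_abs]
    exact pow_le_pow_left₀ (abs_nonneg _) hx2 2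
  have h10 : 3 * (p : ℤ) ^ 2 ≤ m := by linarith
  exact_mod_cast h10

/-- The bound for the least norm, `Δ = -4 m`. -/
theorem boundA {m : ℕ} (h : QD K 0 (m : ℤ) ω) (hf : Fund 0 (m : ℤ))
    {I : Ideal (𝓞 K)} {p : ℕ} (hI : Least I p) : p ^ 2 < m := by
  have hp := hI.prime
  have hnd := hI.not_dvd h hf
  have hp2 : p ≠ 2 := by
    rintro rfl
    apply hnd
    exact ⟨-(2 * (m : ℤ)), by push_cast; ring⟩
  have hpodd : (p : ℤ) % 2 = 1 := by
    have := hp.eq_two_or_odd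
    omega
  have hppos : (0 : ℤ) < p := by exact_mod_cast hp.pos
  have hm0 : (m : ℤ) ≠ 0 := by
    intro h0
    apply hnd
    rw [h0]
    exact ⟨0, by ring⟩
  have hmpos : (0 : ℤ) < m := by
    have : (0 : ℤ) ≤ m := by positivity
    omega
  obtain ⟨b, hb⟩ := exists_int hp hI.norm ω
  obtain ⟨x, hx1, hx2⟩ := pick_half (r := 1) (b := b) hpodd hppos isCoprime_one_left
  rw [one_mul] at hx1
  have hmem := shift_mem hI.norm hb hx1
  have key : ∀ z : ℤ, (z : 𝓞 K) + ω ∈ I → (2 : ℤ) ∣ z ^ 2 + m → 2 * (p : ℤ) ^ 2 ≤ z ^ 2 + m := by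
    intro z hz h2
    have hpos : 0 < z ^ 2 + 0 * z + (m : ℤ) := by
      have := sq_nonneg z
      linarith
    have h3 := hI.two_sq_le h hf hpos.ne' hz (by
      have : z ^ 2 + 0 * z + (m : ℤ) = z ^ 2 + m := by ring
      rw [this]
      exact h2)
    have h4 : ((2 * p ^ 2 : ℕ) : ℤ) ≤ ((z ^ 2 + 0 * z + (m : ℤ)).natAbs : ℤ) := by exact_mod_cast h3
    rw [Int.natAbs_of_nonneg hpos.le] at h4
    push_cast at h4
    linarith
  have hsq : 4 * x ^ 2 ≤ (p : ℤ) ^ 2 := by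
    have h5 : (2 * |x|) ^ 2 ≤ (p : ℤ) ^ 2 := pow_le_pow_left₀ (by positivity) hx2.le 2
    rw [mul_pow, sq_abs] at h5
    linarith
  have hpsq : 0 < (p : ℤ) ^ 2 := by positivity
  have main : (p : ℤ) ^ 2 ≤ m := by
    by_cases h2 : (2 : ℤ) ∣ x ^ 2 + m
    · have h3 := key x hmem h2
      linarith
    · rcases le_or_gt 0 x with h0 | h0
      · have h4 : ((x - p : ℤ) : 𝓞 K) + ω ∈ I :=
          shift_mem hI.norm hmem ⟨-1, by ring⟩
        have h5 : (2 : ℤ) ∣ (x - p) ^ 2 + m := by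
          have h6 : (x - p) ^ 2 + (m : ℤ) = (x ^ 2 + m) + p * (p - 2 * x) := by ring
          rw [h6]
          have h7 : (x ^ 2 + (m : ℤ)) % 2 = 1 := by omega
          have h8 : ((p : ℤ) * (p - 2 * x)) % 2 = 1 := by
            rw [Int.mul_emod]
            have : ((p : ℤ) - 2 * x) % 2 = 1 := by omega
            rw [hpodd, this]
            rfl
          omega
        have h6 := key (x - p) h4 h5
        have h7 : 0 ≤ x * (p - x) := by
          rw [abs_of_nonneg h0] at hx2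
          exact mul_nonneg h0 (by linarith)
        nlinarith
      · have h4 : ((x + p : ℤ) : 𝓞 K) + ω ∈ I :=
          shift_mem hI.norm hmem ⟨1, by ring⟩
        have h5 : (2 : ℤ) ∣ (x + p) ^ 2 + m := by
          have h6 : (x + p) ^ 2 + (m : ℤ) = (x ^ 2 + m) + p * (p + 2 * x) := by ring
          rw [h6]
          have h7 : (x ^ 2 + (m : ℤ)) % 2 = 1 := by omega
          have h8 : ((p : ℤ) * (p + 2 * x)) % 2 = 1 := by
            rw [Int.mul_emod]
            have : ((p : ℤ) + 2 * x) % 2 = 1 := by omega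
            rw [hpodd, this]
            rfl
          omega
        have h6 := key (x + p) h4 h5
        have h7 : 0 ≤ -x * (p + x) := by
          rw [abs_of_neg h0] at hx2
          exact mul_nonneg (by linarith) (by linarith)
        nlinarith
  have hne : (p : ℤ) ^ 2 ≠ m := by
    intro h3
    apply hnd
    rw [← h3]
    exact ⟨-(4 * p), by ring⟩
  have : (p : ℤ) ^ 2 < m := lt_of_le_of_ne main hne
  exact_mod_cast this

end Ono
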