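import Mathlib

/-!
Quadratic fields for the Ono invariant: norms of integers and of the elements x + omega.
-/

set_option autoImplicit false

open NumberField Module

namespace Ono

variable {K : Type*} [Field K] [NumberField K]

/-- A basis `1, s` of a quadratic field. -/
theorem norm_rat (hK : finrank ℚ K = 2) {D : ℤ} (hD : D < 0) {s : K} (hs : s ^ 2 = (D : K))
    (u v : ℚ) : Algebra.norm ℚ ((u : K) + (v : K) * s) = u ^ 2 - D * v ^ 2 := by
  have hli : LinearIndependent ℚ ![(1 : K), s] := by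
    rw [LinearIndependent.pair_iff]
    intro a b hab
    have hb : b = 0 := by
      by_contra hb
      have h1 : s = ((-a / b : ℚ) : K) := by
        have hbK : (b : K) ≠ 0 := by exact_mod_cast hb
        rw [Algebra.smul_def, Algebra.smul_def, mul_one] at hab
        have h2 : (a : K) + (b : K) * s = 0 := by simpa using hab
        push_cast
        field_simp
        linear_combination h2
      have h2 : (((-a / b : ℚ) ^ 2 : ℚ) : K) = ((D : ℚ) : K) := by
        push_cast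
        push_cast at h1
        rw [← h1, hs]
      have h3 : (-a / b : ℚ) ^ 2 = (D : ℚ) := by exact_mod_cast h2
      have h4 : (0 : ℚ) ≤ (-a / b : ℚ) ^ 2 := sq_nonneg _
      have h5 : (D : ℚ) < 0 := by exact_mod_cast hD
      linarith
    subst hb
    rw [zero_smul, add_zero, Algebra.smul_def, mul_one] at hab
    refine ⟨?_, rfl⟩
    exact (map_eq_zero (algebraMap ℚ K)).1 hab
  let b : Basis (Fin 2) ℚ K := basisOfLinearIndependentOfCardEqFinrank hli (by simp [hK])
  have hb0 : b 0 = 1 := by simp [b]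
  have hb1 : b 1 = s := by simp [b]
  rw [Algebra.norm_eq_matrix_det b, Matrix.det_fin_two]
  have h0 : ((u : K) + (v : K) * s) * b 0 = ∑ i, (![u, v] : Fin 2 → ℚ) i • b i := by
    rw [Fin.sum_univ_two, hb0, hb1]
    simp [Algebra.smul_def]
  have h1 : ((u : K) + (v : K) * s) * b 1 = ∑ i, (![v * D, u] : Fin 2 → ℚ) i • b i := by
    rw [Fin.sum_univ_two, hb0, hb1]
    simp only [Algebra.smul_def, Matrix.cons_val_zero, Matrix.cons_val_one, mul_one,
      eq_ratCast]
    push_cast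
    linear_combination (v : K) * hs
  simp only [Algebra.leftMulMatrix_eq_repr_mul, h0, h1, Basis.repr_sum_self]
  simp
  ring

/-- A quadratic order element: `ω ^ 2 = t ω - n`. -/
structure QD (K : Type*) [Field K] [NumberField K] (t n : ℤ) (ω : 𝓞 K) : Prop where
  sq : ω ^ 2 = (t : 𝓞 K) * ω - (n : 𝓞 K)
  norm_int : ∀ a : ℤ, Ideal.absNorm (Ideal.span {(a : 𝓞 K)}) = a.natAbs ^ 2
  norm_om : ∀ x : ℤ, Ideal.absNorm (Ideal.span {(x : 𝓞 K) + ω}) = (x ^ 2 + t * x + n).natAbs

theorem absNorm_int (hK : finrank ℚ K = 2) (a : ℤ) :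
    Ideal.absNorm (Ideal.span {(a : 𝓞 K)}) = a.natAbs ^ 2 := by
  rw [Ideal.absNorm_span_singleton]
  have h1 : Algebra.norm ℤ ((a : 𝓞 K)) = a ^ 2 := by
    have h2 := Algebra.norm_algebraMap_of_basis (RingOfIntegers.basis K) a
    have h3 : Fintype.card (Free.ChooseBasisIndex ℤ (𝓞 K)) = 2 := by
      rw [← finrank_eq_card_chooseBasisIndex, RingOfIntegers.rank, hK]
    rw [h3] at h2
    simpa using h2
  rw [h1, Int.natAbs_pow]

theorem absNorm_om (hK : finrank ℚ K = 2) {D : ℤ} (hD : D < 0) {s : K} (hs : s ^ 2 = (D : K))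
    (ω : 𝓞 K) (x : ℤ) (u v : ℚ)
    (h : algebraMap (𝓞 K) K ω + (x : K) = (u : K) + (v : K) * s) (f : ℤ)
    (hf : u ^ 2 - D * v ^ 2 = f) : Ideal.absNorm (Ideal.span {(x : 𝓞 K) + ω}) = f.natAbs := by
  rw [Ideal.absNorm_span_singleton]
  congr 1
  have h1 : ((Algebra.norm ℤ ((x : 𝓞 K) + ω) : ℤ) : ℚ) = (f : ℚ) := by
    rw [Algebra.coe_norm_int, ← hf, ← norm_rat hK hD hs u v, ← h]
    congr 1
    rw [RingOfIntegers.coe_eq_algebraMap, map_add, map_intCast, add_comm]
  exact_mod_cast h1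

theorem exists_lift {z : K} (h : IsIntegral ℤ z) : ∃ ω : 𝓞 K, algebraMap (𝓞 K) K ω = z :=
  ⟨⟨z, h⟩, rfl⟩

theorem eq_of_algebraMap {a b : 𝓞 K} (h : algebraMap (𝓞 K) K a = algebraMap (𝓞 K) K b) : a = b :=
  RingOfIntegers.ext h

/-- The even case: `ω = s`. -/
theorem exists_even (hK : finrank ℚ K = 2) {D : ℤ} (hD : D < 0) (hs : ∃ s : K, s ^ 2 = (D : K)) :
    ∃ ω : 𝓞 K, QD K 0 (-D) ω := by
  obtain ⟨s, hs⟩ := hs
  have hint : IsIntegral ℤ s := by
    refine ⟨Polynomial.X ^ 2 - Polynomial.C D, Polynomial.monic_X_pow_sub_C D two_ne_zero, ?_⟩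
    rw [Polynomial.eval₂_sub, Polynomial.eval₂_pow, Polynomial.eval₂_X, Polynomial.eval₂_C, hs]
    simp
  obtain ⟨ω, hω⟩ := exists_lift hint
  refine ⟨ω, ?_, absNorm_int hK, ?_⟩
  · apply eq_of_algebraMap
    rw [map_pow, map_sub, map_mul, map_intCast, map_intCast, hω, hs]
    push_cast
    ring
  · intro x
    refine absNorm_om hK hD hs _ x x 1 ?_ _ ?_
    · rw [hω]
      push_cast
      ring
    · push_cast
      ring

/-- The odd case: `ω = (1 + s) / 2`. -/
theorem exists_odd (hK : finrank ℚ K = 2) {D : ℤ} (hD : D < 0) (hs : ∃ s : K, s ^ 2 = (D : K))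
    {n : ℤ} (hn : 4 * n = 1 - D) : ∃ ω : 𝓞 K, QD K 1 n ω := by
  obtain ⟨s, hs⟩ := hs
  have hn' : (4 : K) * n = 1 - D := by exact_mod_cast congrArg (fun z : ℤ => (z : K)) hn
  have hsq : ((1 + s) / 2) ^ 2 = (1 + s) / 2 - (n : K) := by
    have h2 : ((1 + s) / 2) ^ 2 = (1 + 2 * s + s ^ 2) / 4 := by ring
    have h3 : (n : K) = (1 - D) / 4 := by
      rw [← hn']
      ring
    rw [h2, hs, h3]
    ring
  have hint : IsIntegral ℤ ((1 + s) / 2) := by
    refine ⟨Polynomial.X ^ 2 - Polynomial.X + Polynomial.C n, ?_, ?_⟩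
    · monicity!
    · rw [Polynomial.eval₂_add, Polynomial.eval₂_sub, Polynomial.eval₂_pow,
        Polynomial.eval₂_X, Polynomial.eval₂_C, hsq]
      simp
  obtain ⟨ω, hω⟩ := exists_lift hint
  refine ⟨ω, ?_, absNorm_int hK, ?_⟩
  · apply eq_of_algebraMap
    rw [map_pow, map_sub, map_mul, map_intCast, map_intCast, hω, hsq]
    push_cast
    ring
  · intro x
    refine absNorm_om hK hD hs _ x (x + 1 / 2) (1 / 2) ?_ _ ?_
    · rw [hω]
      push_cast
      ring
    · push_cast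
      have : (n : ℚ) = (1 - D) / 4 := by
        have h4 : (4 : ℚ) * n = 1 - D := by exact_mod_cast congrArg (fun z : ℤ => (z : ℚ)) hn
        linarith
      rw [this]
      ring

end Ono
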