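import Pool.Agent.Ono.Field

/-!
Ideals with a class of order greater than two, of least norm, in an imaginary quadratic field.
-/

set_option autoImplicit false

open NumberField Module Ideal

namespace Ono

variable {K : Type*} [Field K] [NumberField K] {t n : ℤ} {ω : 𝓞 K}

/-- The square of the ideal is principal. -/
def Am (I : Ideal (𝓞 K)) : Prop := ∃ a : 𝓞 K, a ≠ 0 ∧ I ^ 2 = span {a}

theorem am_span {a : 𝓞 K} (ha : a ≠ 0) : Am (span {a}) :=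
  ⟨a ^ 2, pow_ne_zero 2 ha, by rw [span_singleton_pow]⟩

theorem Am.mul {I J : Ideal (𝓞 K)} (hI : Am I) (hJ : Am J) : Am (I * J) := by
  obtain ⟨a, ha, h1⟩ := hI
  obtain ⟨b, hb, h2⟩ := hJ
  exact ⟨a * b, mul_ne_zero ha hb, by rw [mul_pow, h1, h2, span_singleton_mul_span_singleton]⟩

theorem Am.cancel {I J : Ideal (𝓞 K)} (hIJ : Am (I * J)) (hI : Am I) : Am J := by
  obtain ⟨a, ha, h1⟩ := hI
  obtain ⟨c, hc, h2⟩ := hIJ
  rw [mul_pow, h1] at h2
  have h3 : c ∈ span {a} := by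
    have h4 : c ∈ span {a} * J ^ 2 := by
      rw [h2]
      exact mem_span_singleton_self c
    have h5 : span {a} * J ^ 2 ≤ span {a} := Ideal.mul_le_left
    exact h5 h4
  obtain ⟨d, rfl⟩ := mem_span_singleton'.1 h3
  refine ⟨d, fun h => hc (by rw [h, zero_mul]), ?_⟩
  have h5 : span {a} * J ^ 2 = span {a} * span {d} := by
    rw [h2, span_singleton_mul_span_singleton, mul_comm]
  have h6 : span {a} ≠ (0 : Ideal (𝓞 K)) := fun h => ha (span_singleton_eq_bot.1 h)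
  exact mul_left_cancel₀ h6 h5

theorem Am.ne_bot {I : Ideal (𝓞 K)} (h : Am I) : I ≠ ⊥ := by
  rintro rfl
  obtain ⟨a, ha, h1⟩ := h
  rw [pow_two, Ideal.bot_mul, eq_comm, span_singleton_eq_bot] at h1
  exact ha h1

theorem am_top : Am (⊤ : Ideal (𝓞 K)) := by
  have : (⊤ : Ideal (𝓞 K)) = span {1} := by simp
  rw [this]
  exact am_span one_ne_zero

theorem am_of_primes (J : Ideal (𝓞 K)) (hJ : J ≠ ⊥)
    (h : ∀ r : Ideal (𝓞 K), Prime r → r ∣ J → Am r) : Am J := by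
  induction J using UniqueFactorizationMonoid.induction_on_prime with
  | h₁ => exact absurd rfl hJ
  | h₂ x hx =>
    rw [Ideal.isUnit_iff] at hx
    subst hx
    exact am_top
  | h₃ a p ha hp ih =>
    have h1 : Am p := h p hp (dvd_mul_right p a)
    have h2 : Am a := ih ha (fun r hr hd => h r hr (hd.mul_left p))
    exact h1.mul h2

theorem am_iff {I : Ideal (𝓞 K)} (hI : I ∈ nonZeroDivisors (Ideal (𝓞 K))) :
    Am I ↔ ClassGroup.mk0 ⟨I, hI⟩ ^ 2 = 1 := by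
  rw [← map_pow]
  have h1 : ((⟨I, hI⟩ : nonZeroDivisors (Ideal (𝓞 K))) ^ 2) = ⟨I ^ 2, pow_mem hI 2⟩ := rfl
  rw [h1, ClassGroup.mk0_eq_one_iff]
  constructor
  · rintro ⟨a, _, h⟩
    exact ⟨⟨a, h⟩⟩
  · rintro ⟨⟨a, h⟩⟩
    refine ⟨a, ?_, h⟩
    rintro rfl
    have h2 : I ^ 2 = ⊥ := by
      rw [h]
      simp
    exact (nonZeroDivisors.ne_zero (pow_mem hI 2)) h2

theorem exists_not_am (h : ¬ ∀ c : ClassGroup (𝓞 K), c ^ 2 = 1) :
    ∃ I : Ideal (𝓞 K), I ≠ ⊥ ∧ ¬ Am I := by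
  push Not at h
  obtain ⟨c, hc⟩ := h
  obtain ⟨⟨I, hI⟩, rfl⟩ := ClassGroup.mk0_surjective c
  exact ⟨I, nonZeroDivisors.ne_zero hI, fun h => hc ((am_iff hI).1 h)⟩

theorem eq_of_le_of_absNorm {I J : Ideal (𝓞 K)} (h : J ≤ I) (hn : absNorm I = absNorm J)
    (h0 : absNorm I ≠ 0) : I = J := by
  rw [← dvd_iff_le] at h
  obtain ⟨L, rfl⟩ := h
  rw [map_mul] at hn
  have h1 : absNorm L = 1 := by
    have : absNorm I * 1 = absNorm I * absNorm L := by rw [mul_one]; exact hn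
    exact (Nat.eq_of_mul_eq_mul_left (Nat.pos_of_ne_zero h0) this).symm
  rw [absNorm_eq_one_iff] at h1
  rw [h1, mul_top]

theorem absNorm_ne_zero {I : Ideal (𝓞 K)} (h : I ≠ ⊥) : absNorm I ≠ 0 :=
  fun h0 => h (absNorm_eq_zero_iff.1 h0)

/-- A prime ideal over the prime number `l`. -/
theorem QD.prime_over (h : QD K t n ω) {r : Ideal (𝓞 K)} (hr : Prime r) {l : ℕ} (hl : l.Prime)
    (hlr : (l : 𝓞 K) ∈ r) : absNorm r = l ∨ r = span {(l : 𝓞 K)} := by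
  have h1 : absNorm (span {(l : 𝓞 K)}) = l ^ 2 := by
    have := h.norm_int l
    simpa using this
  have h2 : span {(l : 𝓞 K)} ≤ r := by
    rw [span_singleton_le_iff_mem]
    exact hlr
  have h3 := absNorm_dvd_absNorm_of_le h2
  rw [h1, Nat.dvd_prime_pow hl] at h3
  obtain ⟨k, hk, h4⟩ := h3
  interval_cases k
  · rw [pow_zero, absNorm_eq_one_iff] at h4
    exact absurd (Ideal.isUnit_iff.2 h4) hr.not_isUnit
  · left
    rw [h4, pow_one]
  · right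
    exact eq_of_le_of_absNorm h2 (by rw [h4, h1]) (absNorm_ne_zero hr.ne_zero)

theorem exists_prime_mem {r : Ideal (𝓞 K)} (hr : Prime r) (m : ℕ) (hm : (m : 𝓞 K) ∈ r)
    (hm0 : m ≠ 0) : ∃ l : ℕ, l.Prime ∧ l ∣ m ∧ (l : 𝓞 K) ∈ r := by
  have hrp : r.IsPrime := isPrime_of_prime hr
  induction m using Nat.recOnMul with
  | zero => exact absurd rfl hm0
  | one =>
    exfalso
    rw [Nat.cast_one] at hm
    exact hrp.ne_top ((eq_top_iff_one _).2 hm)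
  | prime p hp => exact ⟨p, hp, dvd_refl p, hm⟩
  | mul a b iha ihb =>
    rw [Nat.cast_mul] at hm
    rcases hrp.mem_or_mem hm with h | h
    · obtain ⟨l, h1, h2, h3⟩ := iha h (left_ne_zero_of_mul hm0)
      exact ⟨l, h1, h2.mul_right b, h3⟩
    · obtain ⟨l, h1, h2, h3⟩ := ihb h (right_ne_zero_of_mul hm0)
      exact ⟨l, h1, h2.mul_left a, h3⟩

/-- In a residue ring with a prime number of elements every element is an integer. -/
theorem exists_int {I : Ideal (𝓞 K)} {p : ℕ} (hp : p.Prime) (hI : absNorm I = p) (z : 𝓞 K) :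
    ∃ b : ℤ, (b : 𝓞 K) + z ∈ I := by
  have hcard : Nat.card (𝓞 K ⧸ I) = p := by
    rw [← hI]
    rfl
  have : Fact p.Prime := ⟨hp⟩
  have hne : (1 : 𝓞 K ⧸ I) ≠ 0 := by
    intro h1
    have h2 : (1 : 𝓞 K) ∈ I := by
      rw [← Ideal.Quotient.eq_zero_iff_mem, map_one]
      exact h1
    have h3 : I = ⊤ := (eq_top_iff_one _).2 h2
    rw [← absNorm_eq_one_iff, hI] at h3
    exact hp.one_lt.ne' h3
  have htop := zmultiples_eq_top_of_prime_card hcard hne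
  have h4 : (Ideal.Quotient.mk I (-z)) ∈ AddSubgroup.zmultiples (1 : 𝓞 K ⧸ I) := by
    rw [htop]
    trivial
  obtain ⟨b, hb⟩ := h4
  refine ⟨b, ?_⟩
  have h5 : (Ideal.Quotient.mk I) ((b : 𝓞 K) + z) = 0 := by
    rw [map_add, map_intCast]
    have h6 : (b : 𝓞 K ⧸ I) = Ideal.Quotient.mk I (-z) := by
      rw [← hb]
      simp
    rw [h6, map_neg]
    ring
  exact Ideal.Quotient.eq_zero_iff_mem.1 h5

theorem QD.norm_dvd (h : QD K t n ω) {I : Ideal (𝓞 K)} {x : ℤ} (hx : (x : 𝓞 K) + ω ∈ I) :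
    ((absNorm I : ℕ) : ℤ) ∣ x ^ 2 + t * x + n := by
  have h1 : span {(x : 𝓞 K) + ω} ≤ I := by
    rw [span_singleton_le_iff_mem]
    exact hx
  have h2 := absNorm_dvd_absNorm_of_le h1
  rw [h.norm_om] at h2
  exact Int.natCast_dvd.2 h2

theorem natCast_mem {I : Ideal (𝓞 K)} {p : ℕ} (hI : absNorm I = p) : (p : 𝓞 K) ∈ I := by
  rw [← hI]
  exact absNorm_mem I

theorem shift_mem {I : Ideal (𝓞 K)} {p : ℕ} (hI : absNorm I = p) {b x : ℤ}
    (hb : (b : 𝓞 K) + ω ∈ I) (hx : (p : ℤ) ∣ x - b) : (x : 𝓞 K) + ω ∈ I := by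
  obtain ⟨c, hc⟩ := hx
  have h1 : (x : 𝓞 K) + ω = ((b : 𝓞 K) + ω) + (c : 𝓞 K) * (p : 𝓞 K) := by
    have : x = b + p * c := by linarith
    rw [this]
    push_cast
    ring
  rw [h1]
  exact I.add_mem hb (I.mul_mem_left _ (natCast_mem hI))

theorem QD.conj (h : QD K t n ω) (x : ℤ) :
    ((x : 𝓞 K) + ω) * (((2 * x + t : ℤ) : 𝓞 K) - ((x : 𝓞 K) + ω)) =
      ((x ^ 2 + t * x + n : ℤ) : 𝓞 K) := by
  have h1 := h.sq
  push_cast
  linear_combination -h1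

/-- `t ^ 2 - 4 n` is a fundamental discriminant. -/
def Fund (t n : ℤ) : Prop :=
  ∀ l : ℕ, l.Prime → (l : ℤ) ∣ t ^ 2 - 4 * n → ∀ b : ℤ, ¬ ((l : ℤ) ^ 2 ∣ b ^ 2 + t * b + n)

/-- An ideal whose norm is a ramified prime. -/
theorem QD.ram (h : QD K t n ω) (hf : Fund t n) {I : Ideal (𝓞 K)} {l : ℕ} (hl : l.Prime)
    (hI : absNorm I = l) (hd : (l : ℤ) ∣ t ^ 2 - 4 * n) : Am I := by
  obtain ⟨b, hb⟩ := exists_int hl hI ω
  have h1 := h.norm_dvd hb
  rw [hI] at h1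
  obtain ⟨c, hc⟩ := h1
  have hlZ : Prime (l : ℤ) := Nat.prime_iff_prime_int.1 hl
  have h2 : (l : ℤ) ∣ 2 * b + t := by
    apply hlZ.dvd_of_dvd_pow (n := 2)
    have h3 : (2 * b + t) ^ 2 = (t ^ 2 - 4 * n) + 4 * (b ^ 2 + t * b + n) := by ring
    rw [h3, hc]
    exact dvd_add hd ⟨4 * c, by ring⟩
  have h4 : ¬ (l : ℤ) ∣ c := by
    rintro ⟨e, he⟩
    exact hf l hl hd b ⟨e, by rw [hc, he]; ring⟩
  have h5 : IsCoprime (l : ℤ) c := (Prime.coprime_iff_not_dvd hlZ).2 h4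
  obtain ⟨u, v, huv⟩ := h5
  have hm : (l : 𝓞 K) ∈ I := natCast_mem hI
  have h6 : ((l : ℤ) : 𝓞 K) ∈ I ^ 2 := by
    have h7 : ((b ^ 2 + t * b + n : ℤ) : 𝓞 K) ∈ I ^ 2 := by
      rw [← h.conj b, pow_two]
      apply Ideal.mul_mem_mul hb
      obtain ⟨e, he⟩ := h2
      rw [he]
      push_cast
      exact I.sub_mem (I.mul_mem_right _ hm) hb
    have h8 : ((l : 𝓞 K) * (l : 𝓞 K)) ∈ I ^ 2 := by
      rw [pow_two]
      exact Ideal.mul_mem_mul hm hm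
    have h9 : ((l : ℤ) : 𝓞 K) = (u : 𝓞 K) * ((l : 𝓞 K) * (l : 𝓞 K)) +
        (v : 𝓞 K) * ((b ^ 2 + t * b + n : ℤ) : 𝓞 K) := by
      have h10 : (l : ℤ) = u * (l * l) + v * (b ^ 2 + t * b + n) := by
        rw [hc]
        linear_combination (-(l : ℤ)) * huv
      have h11 := congrArg (fun z : ℤ => (z : 𝓞 K)) h10
      push_cast at h11 ⊢
      exact h11
    rw [h9]
    exact (I ^ 2).add_mem ((I ^ 2).mul_mem_left _ h8) ((I ^ 2).mul_mem_left _ h7)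
  have h12 : span {((l : ℤ) : 𝓞 K)} ≤ I ^ 2 := by
    rw [span_singleton_le_iff_mem]
    exact h6
  have h13 : absNorm (I ^ 2) = absNorm (span {((l : ℤ) : 𝓞 K)}) := by
    rw [map_pow, hI, h.norm_int, Int.natAbs_natCast]
  have h14 := eq_of_le_of_absNorm h12 h13 (by
    rw [map_pow, hI]
    exact pow_ne_zero 2 hl.ne_zero)
  refine ⟨((l : ℤ) : 𝓞 K), ?_, h14⟩
  have := hl.ne_zero
  exact_mod_cast this

/-- A prime ideal over a ramified prime. -/
theorem QD.am_of_ram (h : QD K t n ω) (hf : Fund t n) {r : Ideal (𝓞 K)} (hr : Prime r) {l : ℕ}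
    (hl : l.Prime) (hlr : (l : 𝓞 K) ∈ r) (hd : (l : ℤ) ∣ t ^ 2 - 4 * n) : Am r := by
  rcases h.prime_over hr hl hlr with h1 | h1
  · exact h.ram hf hl h1 hd
  · rw [h1]
    exact am_span (by exact_mod_cast hl.ne_zero)

/-- An ideal of least norm among those with a class of order greater than two. -/
structure Least (I : Ideal (𝓞 K)) (p : ℕ) : Prop where
  prime : p.Prime
  norm : absNorm I = p
  not_am : ¬ Am I
  least : ∀ J : Ideal (𝓞 K), J ≠ ⊥ → ¬ Am J → p ≤ absNorm J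

theorem QD.exists_least (h : QD K t n ω) (hc : ¬ ∀ c : ClassGroup (𝓞 K), c ^ 2 = 1) :
    ∃ (I : Ideal (𝓞 K)) (p : ℕ), Least I p := by
  classical
  obtain ⟨I0, hI0, hA0⟩ := exists_not_am hc
  have hex : ∃ m : ℕ, ∃ I : Ideal (𝓞 K), I ≠ ⊥ ∧ ¬ Am I ∧ absNorm I = m :=
    ⟨_, I0, hI0, hA0, rfl⟩
  obtain ⟨I, hI, hA, hn⟩ := Nat.find_spec hex
  have hmin : ∀ J : Ideal (𝓞 K), J ≠ ⊥ → ¬ Am J → Nat.find hex ≤ absNorm J :=
    fun J hJ hJA => Nat.find_min' hex ⟨J, hJ, hJA, rfl⟩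
  have h1 : ∃ r : Ideal (𝓞 K), Prime r ∧ r ∣ I ∧ ¬ Am r := by
    by_contra hcon
    push Not at hcon
    exact hA (am_of_primes I hI fun r hr hd => hcon r hr hd)
  obtain ⟨r, hr, hd, hrA⟩ := h1
  have hr0 : r ≠ ⊥ := hr.ne_zero
  have h2 : absNorm r = Nat.find hex := by
    apply le_antisymm
    · rw [← hn]
      exact Nat.le_of_dvd (Nat.pos_of_ne_zero (absNorm_ne_zero hI))
        (absNorm_dvd_absNorm_of_le (dvd_iff_le.1 hd))
    · exact hmin r hr0 hrA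
  obtain ⟨l, hl, _, hlr⟩ := exists_prime_mem hr (absNorm r) (absNorm_mem r) (absNorm_ne_zero hr0)
  rcases h.prime_over hr hl hlr with h3 | h3
  · refine ⟨r, l, hl, h3, hrA, ?_⟩
    rw [← h3, h2]
    exact hmin
  · exfalso
    apply hrA
    rw [h3]
    exact am_span (by exact_mod_cast hl.ne_zero)

theorem Least.not_dvd (h : QD K t n ω) (hf : Fund t n) {I : Ideal (𝓞 K)} {p : ℕ}
    (hI : Least I p) : ¬ (p : ℤ) ∣ t ^ 2 - 4 * n :=
  fun hd => hI.not_am (h.ram hf hI.prime hI.norm hd)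

theorem om_ne_zero (h : QD K t n ω) {x : ℤ} (hx : x ^ 2 + t * x + n ≠ 0) :
    (x : 𝓞 K) + ω ≠ 0 := by
  intro h0
  have h1 := h.norm_om x
  rw [h0] at h1
  have h2 : absNorm (span {(0 : 𝓞 K)}) = 0 := by
    rw [absNorm_eq_zero_iff]
    simp
  rw [h2] at h1
  exact hx (Int.natAbs_eq_zero.1 h1.symm)

/-- The other factor of the principal ideal of an element. -/
theorem Least.factor (h : QD K t n ω) {I : Ideal (𝓞 K)} {p : ℕ} (hI : Least I p) {x : ℤ}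
    (hx : x ^ 2 + t * x + n ≠ 0) (hm : (x : 𝓞 K) + ω ∈ I) :
    ∃ J : Ideal (𝓞 K), J ≠ ⊥ ∧ ¬ Am J ∧ span {(x : 𝓞 K) + ω} = I * J ∧
      (x ^ 2 + t * x + n).natAbs = p * absNorm J := by
  have h1 : I ∣ span {(x : 𝓞 K) + ω} := by
    rw [dvd_iff_le, span_singleton_le_iff_mem]
    exact hm
  obtain ⟨J, hJ⟩ := h1
  have h0 := om_ne_zero h hx
  refine ⟨J, ?_, ?_, hJ, ?_⟩
  · rintro rfl
    rw [mul_bot, span_singleton_eq_bot] at hJ
    exact h0 hJ
  · intro hJA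
    apply hI.not_am
    have h2 : Am (J * I) := by
      rw [mul_comm, ← hJ]
      exact am_span h0
    exact h2.cancel hJA
  · rw [← h.norm_om x, hJ, map_mul, hI.norm]

theorem Least.sq_le (h : QD K t n ω) {I : Ideal (𝓞 K)} {p : ℕ} (hI : Least I p) {x : ℤ}
    (hx : x ^ 2 + t * x + n ≠ 0) (hm : (x : 𝓞 K) + ω ∈ I) :
    p ^ 2 ≤ (x ^ 2 + t * x + n).natAbs := by
  obtain ⟨J, h1, h2, _, h4⟩ := hI.factor h hx hm
  rw [h4, pow_two]
  exact Nat.mul_le_mul_left p (hI.least J h1 h2)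

/-- The cofactor of `p` is not a product of ramified primes. -/
theorem Least.not_ram (h : QD K t n ω) (hf : Fund t n) {I : Ideal (𝓞 K)} {p : ℕ}
    (hI : Least I p) {x : ℤ} (hx : x ^ 2 + t * x + n ≠ 0) (hm : (x : 𝓞 K) + ω ∈ I) (g : ℕ)
    (hg : (x ^ 2 + t * x + n).natAbs = p * g)
    (hram : ∀ l : ℕ, l.Prime → l ∣ g → (l : ℤ) ∣ t ^ 2 - 4 * n) : False := by
  obtain ⟨J, h1, h2, _, h4⟩ := hI.factor h hx hm
  have h5 : absNorm J = g := by
    rw [hg] at h4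
    exact (Nat.eq_of_mul_eq_mul_left hI.prime.pos h4).symm
  apply h2
  apply am_of_primes J h1
  intro r hr hd
  have h6 : absNorm r ∣ g := by
    rw [← h5]
    exact absNorm_dvd_absNorm_of_le (dvd_iff_le.1 hd)
  obtain ⟨l, hl, hlr, hmem⟩ := exists_prime_mem hr (absNorm r) (absNorm_mem r)
    (absNorm_ne_zero hr.ne_zero)
  exact h.am_of_ram hf hr hl hmem (hram l hl (hlr.trans h6))

/-- An ideal of norm `l` when `l` divides a value exactly once. -/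
theorem QD.exists_norm (h : QD K t n ω) {l : ℕ} (hl : l.Prime) {b : ℤ}
    (h1 : (l : ℤ) ∣ b ^ 2 + t * b + n) (h2 : ¬ (l : ℤ) ^ 2 ∣ b ^ 2 + t * b + n) :
    ∃ r : Ideal (𝓞 K), absNorm r = l := by
  let r : Ideal (𝓞 K) := span {((l : ℤ) : 𝓞 K)} ⊔ span {(b : 𝓞 K) + ω}
  refine ⟨r, ?_⟩
  have h3 : span {((l : ℤ) : 𝓞 K)} ≤ r := le_sup_left
  have h4 := absNorm_dvd_absNorm_of_le h3
  rw [h.norm_int, Int.natAbs_natCast, Nat.dvd_prime_pow hl] at h4
  obtain ⟨k, hk, h5⟩ := h4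
  have hnorm : (absNorm (span {((l : ℤ) : 𝓞 K)})) = l ^ 2 := by
    rw [h.norm_int, Int.natAbs_natCast]
  interval_cases k
  · exfalso
    rw [pow_zero, absNorm_eq_one_iff] at h5
    have h6 : (1 : 𝓞 K) ∈ r := by
      rw [h5]
      trivial
    obtain ⟨y, hy, z, hz, hyz⟩ := Submodule.mem_sup.1 h6
    obtain ⟨u, rfl⟩ := mem_span_singleton'.1 hy
    obtain ⟨v, rfl⟩ := mem_span_singleton'.1 hz
    have h7 := h.conj b
    obtain ⟨c, hc⟩ := h1
    -- the conjugate is divisible by l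
    have h8 : ((2 * b + t : ℤ) : 𝓞 K) - ((b : 𝓞 K) + ω) ∈ span {((l : ℤ) : 𝓞 K)} := by
      rw [mem_span_singleton']
      refine ⟨u * (((2 * b + t : ℤ) : 𝓞 K) - ((b : 𝓞 K) + ω)) + v * (c : 𝓞 K), ?_⟩
      have h9 : ((b ^ 2 + t * b + n : ℤ) : 𝓞 K) = ((l : ℤ) : 𝓞 K) * (c : 𝓞 K) := by
        rw [hc]
        push_cast
        ring
      linear_combination (((2 * b + t : ℤ) : 𝓞 K) - ((b : 𝓞 K) + ω)) * hyz - v * h7 - v * h9
    have h10 : ((-b - t : ℤ) : 𝓞 K) + ω ∈ span {((l : ℤ) : 𝓞 K)} := by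
      have : ((-b - t : ℤ) : 𝓞 K) + ω = -(((2 * b + t : ℤ) : 𝓞 K) - ((b : 𝓞 K) + ω)) := by
        push_cast
        ring
      rw [this]
      exact (span {((l : ℤ) : 𝓞 K)}).neg_mem h8
    have h11 := h.norm_dvd h10
    rw [hnorm] at h11
    apply h2
    have : (-b - t) ^ 2 + t * (-b - t) + n = b ^ 2 + t * b + n := by ring
    rw [this] at h11
    exact_mod_cast h11
  · rw [h5, pow_one]
  · exfalso
    have h6 := eq_of_le_of_absNorm h3 (by rw [h5, hnorm]) (by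
      rw [h5]
      exact pow_ne_zero 2 hl.ne_zero)
    have h7 : (b : 𝓞 K) + ω ∈ span {((l : ℤ) : 𝓞 K)} := by
      rw [← h6]
      exact (le_sup_right : span {(b : 𝓞 K) + ω} ≤ r) (mem_span_singleton_self _)
    have h8 := h.norm_dvd h7
    rw [hnorm] at h8
    apply h2
    exact_mod_cast h8

/-- The improved bound with the ramified prime two. -/
theorem Least.two_sq_le (h : QD K 0 n ω) (hf : Fund 0 n) {I : Ideal (𝓞 K)} {p : ℕ}
    (hI : Least I p) {x : ℤ} (hx : x ^ 2 + 0 * x + n ≠ 0) (hm : (x : 𝓞 K) + ω ∈ I)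
    (h2 : (2 : ℤ) ∣ x ^ 2 + 0 * x + n) : 2 * p ^ 2 ≤ (x ^ 2 + 0 * x + n).natAbs := by
  have hd : ((2 : ℕ) : ℤ) ∣ 0 ^ 2 - 4 * n := ⟨-2 * n, by push_cast; ring⟩
  obtain ⟨r, hr⟩ := h.exists_norm Nat.prime_two (b := x) (by exact_mod_cast h2)
    (hf 2 Nat.prime_two hd x)
  have hrA : Am r := h.ram hf Nat.prime_two hr hd
  have hrp : r.IsPrime := isPrime_of_irreducible_absNorm (by
    rw [hr]
    exact Nat.prime_two)
  have hrprime : Prime r := prime_of_isPrime hrA.ne_bot hrp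
  have h2r : (2 : 𝓞 K) ∈ r := by
    have := natCast_mem hr
    exact_mod_cast this
  have h3 : (x : 𝓞 K) + ω ∈ r := by
    have h4 := h.conj x
    have h5 : ((x ^ 2 + 0 * x + n : ℤ) : 𝓞 K) ∈ r := by
      obtain ⟨c, hc⟩ := h2
      rw [hc]
      push_cast
      exact r.mul_mem_right _ h2r
    rw [← h4] at h5
    rcases hrp.mem_or_mem h5 with h6 | h6
    · exact h6
    · have h7 : (x : 𝓞 K) + ω = 2 * (x : 𝓞 K) -
          (((2 * x + 0 : ℤ) : 𝓞 K) - ((x : 𝓞 K) + ω)) := by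
        push_cast
        ring
      rw [h7]
      exact r.sub_mem (r.mul_mem_right _ h2r) h6
  obtain ⟨J, h1, hJ, h4, h5⟩ := hI.factor h hx hm
  have h6 : r ∣ I * J := by
    rw [← h4, dvd_iff_le, span_singleton_le_iff_mem]
    exact h3
  have h7 : r ∣ J := by
    rcases hrprime.dvd_or_dvd h6 with h7 | h7
    · exfalso
      have h8 := absNorm_dvd_absNorm_of_le (dvd_iff_le.1 h7)
      rw [hr, hI.norm] at h8
      have h9 : 2 = p := (Nat.prime_dvd_prime_iff_eq Nat.prime_two hI.prime).1 h8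
      apply hI.not_dvd h hf
      rw [← h9]
      exact hd
    · exact h7
  obtain ⟨L, hL⟩ := h7
  have h8 : L ≠ ⊥ := by
    rintro rfl
    rw [mul_bot] at hL
    exact h1 hL
  have h9 : ¬ Am L := fun hLA => hJ (by rw [hL]; exact hrA.mul hLA)
  have h10 := hI.least L h8 h9
  rw [h5, hL, map_mul, hr]
  calc 2 * p ^ 2 = p * (2 * p) := by ring
    _ ≤ p * (2 * absNorm L) := Nat.mul_le_mul_left p (Nat.mul_le_mul_left 2 h10)

end Ono
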