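import Mathlib

/-!
Solutions of the congruence `x ^ 2 + t x + n = 0` modulo `a`, and values with many prime factors.
-/

set_option autoImplicit false

open ArithmeticFunction

namespace Ono

/-- The congruence is solvable. -/
def Sol (t n : ℤ) (a : ℕ) : Prop := ∃ x : ℤ, (a : ℤ) ∣ x ^ 2 + t * x + n

theorem dvd_of_sub {t n x y : ℤ} {a : ℤ} (h : a ∣ y ^ 2 + t * y + n) (hd : a ∣ x - y) :
    a ∣ x ^ 2 + t * x + n := by
  have h1 : x ^ 2 + t * x + n = (x - y) * (x + y + t) + (y ^ 2 + t * y + n) := by ring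
  rw [h1]
  exact dvd_add (hd.mul_right _) h

theorem Sol.mul {t n : ℤ} {a b : ℕ} (hab : Nat.Coprime a b) (ha : Sol t n a) (hb : Sol t n b) :
    Sol t n (a * b) := by
  obtain ⟨x, hx⟩ := ha
  obtain ⟨y, hy⟩ := hb
  have hc : IsCoprime (a : ℤ) (b : ℤ) := Nat.isCoprime_iff_coprime.2 hab
  obtain ⟨u, v, huv⟩ := hc
  refine ⟨x * (v * b) + y * (u * a), ?_⟩
  rw [Nat.cast_mul]
  apply IsCoprime.mul_dvd ⟨u, v, huv⟩
  · apply dvd_of_sub hx
    exact ⟨u * (y - x), by linear_combination x * huv⟩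
  · apply dvd_of_sub hy
    exact ⟨v * (x - y), by linear_combination y * huv⟩

theorem Sol.one (t n : ℤ) : Sol t n 1 := ⟨0, by simp⟩

theorem Sol.pow {t n : ℤ} {p : ℕ} (hp : p.Prime) (hd : ¬ (p : ℤ) ∣ t ^ 2 - 4 * n)
    (h : Sol t n p) (j : ℕ) : Sol t n (p ^ j) := by
  have hpZ : Prime (p : ℤ) := Nat.prime_iff_prime_int.1 hp
  have key : ∀ i : ℕ, Sol t n (p ^ (i + 1)) := by
    intro i
    induction i with
    | zero => simpa using h
    | succ i ih =>
      obtain ⟨x, g, hg⟩ := ih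
      have h1 : ¬ (p : ℤ) ∣ 2 * x + t := by
        intro h2
        apply hd
        have h3 : t ^ 2 - 4 * n = (2 * x + t) * (2 * x + t) - 4 * (x ^ 2 + t * x + n) := by ring
        rw [h3, hg]
        refine dvd_sub (h2.mul_right _) ?_
        push_cast
        exact ⟨4 * (p ^ i * g), by ring⟩
      have h2 : IsCoprime (p : ℤ) (2 * x + t) := (Prime.coprime_iff_not_dvd hpZ).2 h1
      obtain ⟨u, v, huv⟩ := h2
      refine ⟨x - p ^ (i + 1) * (g * v), ?_⟩
      have h3 : (x - (p : ℤ) ^ (i + 1) * (g * v)) ^ 2 + t * (x - (p : ℤ) ^ (i + 1) * (g * v)) + n =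
          (p : ℤ) ^ (i + 1 + 1) * (g * u + (p : ℤ) ^ i * (g * v) ^ 2) := by
        have h4 : x ^ 2 + t * x + n = (p : ℤ) ^ (i + 1) * g := by
          rw [hg]
          push_cast
          ring
        have h5 : (x - (p : ℤ) ^ (i + 1) * (g * v)) ^ 2 +
            t * (x - (p : ℤ) ^ (i + 1) * (g * v)) + n =
            (x ^ 2 + t * x + n) - (p : ℤ) ^ (i + 1) * g * (v * (2 * x + t)) +
              ((p : ℤ) ^ (i + 1)) ^ 2 * (g * v) ^ 2 := by ring
        have h6 : v * (2 * x + t) = 1 - u * p := by linarith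
        rw [h5, h4, h6]
        ring
      rw [h3]
      push_cast
      exact dvd_mul_right _ _
  cases j with
  | zero => simpa using Sol.one t n
  | succ j => exact key j

theorem Sol.ram {t n : ℤ} {l : ℕ} (hl : l.Prime) (hd : (l : ℤ) ∣ t ^ 2 - 4 * n) : Sol t n l := by
  rcases hl.eq_two_or_odd' with h2 | h2
  · subst h2
    refine ⟨n, ?_⟩
    have h3 : (2 : ℤ) ∣ t ^ 2 := by
      have h4 : t ^ 2 = (t ^ 2 - 4 * n) + 2 * (2 * n) := by ring
      rw [h4]
      exact dvd_add (by exact_mod_cast hd) (dvd_mul_right _ _)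
    have h5 : (2 : ℤ) ∣ t := Int.prime_two.dvd_of_dvd_pow h3
    obtain ⟨c, hc⟩ := h5
    have h6 : (2 : ℤ) ∣ n * (n + 1) := (Int.even_mul_succ_self n).two_dvd
    have h7 : n ^ 2 + t * n + n = n * (n + 1) + 2 * (c * n) := by
      rw [hc]
      ring
    rw [h7]
    exact_mod_cast dvd_add h6 (dvd_mul_right _ _)
  · obtain ⟨e, he⟩ := h2
    refine ⟨-t * (e + 1), ?_⟩
    have h3 : IsCoprime (l : ℤ) 4 := by
      refine ⟨2 * e + 1, -(e ^ 2 + e), ?_⟩
      rw [he]
      push_cast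
      ring
    apply h3.dvd_of_dvd_mul_left
    have h4 : 4 * ((-t * ((e : ℤ) + 1)) ^ 2 + t * (-t * ((e : ℤ) + 1)) + n) =
        (l : ℤ) * (t ^ 2 * l) - (t ^ 2 - 4 * n) := by
      rw [he]
      push_cast
      ring
    rw [h4]
    exact dvd_sub (dvd_mul_right _ _) hd

theorem Sol.prod {t n : ℤ} (S : Finset ℕ) (hS : ∀ l ∈ S, l.Prime ∧ (l : ℤ) ∣ t ^ 2 - 4 * n) :
    Sol t n (∏ l ∈ S, l) := by
  classical
  induction S using Finset.induction_on with
  | empty => simpa using Sol.one t n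
  | insert l S hl ih =>
    rw [Finset.prod_insert hl]
    have h1 := hS l (Finset.mem_insert_self l S)
    refine Sol.mul ?_ (Sol.ram h1.1 h1.2) (ih fun r hr => hS r (Finset.mem_insert_of_mem hr))
    apply Nat.Coprime.prod_right
    intro r hr
    have h2 := hS r (Finset.mem_insert_of_mem hr)
    exact (Nat.coprime_primes h1.1 h2.1).2 fun h => hl (h ▸ hr)

/-- A value with more prime factors than `a`. -/
theorem Sol.value {t n : ℤ} {M : ℕ} (hM : t ^ 2 - 4 * n = -(M : ℤ)) {a : ℕ}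
    (ha : 0 < a) (hs : Sol t n a) (h4 : 4 * a < M) :
    ∃ x : ℕ, 4 * (x + 1) ≤ M ∧
      cardFactors a + 1 ≤ cardFactors ((x : ℤ) ^ 2 + t * x + n).natAbs := by
  obtain ⟨y, hy⟩ := hs
  have haZ : (0 : ℤ) < a := by exact_mod_cast ha
  have h1 := Int.emod_nonneg y haZ.ne'
  have h2 := Int.emod_lt_of_pos y haZ
  obtain ⟨x, hx⟩ : ∃ x : ℕ, (x : ℤ) = y % a := ⟨(y % a).toNat, by omega⟩
  have h3 : (a : ℤ) ∣ (x : ℤ) ^ 2 + t * x + n := by
    apply dvd_of_sub hy
    rw [hx]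
    have := Int.emod_add_mul_ediv y a
    exact ⟨-(y / a), by linarith⟩
  refine ⟨x, by omega, ?_⟩
  obtain ⟨k, hk⟩ := h3
  have h5 : (M : ℤ) ≤ 4 * ((x : ℤ) ^ 2 + t * x + n) := by
    have h6 : 4 * ((x : ℤ) ^ 2 + t * x + n) = (2 * x + t) ^ 2 - (t ^ 2 - 4 * n) := by ring
    rw [h6, hM]
    have := sq_nonneg (2 * (x : ℤ) + t)
    linarith
  have h7 : (a : ℤ) * 1 < a * k := by
    rw [← hk]
    have : (4 : ℤ) * a < M := by exact_mod_cast h4
    linarith
  have h8 : 1 < k := lt_of_mul_lt_mul_left h7 haZ.le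
  lift k to ℕ using (by linarith)
  have h9 : ((x : ℤ) ^ 2 + t * x + n).natAbs = a * k := by
    rw [hk, ← Nat.cast_mul, Int.natAbs_natCast]
  have h10 : 1 < k := by exact_mod_cast h8
  rw [h9, cardFactors_mul ha.ne' (by omega)]
  have := cardFactors_pos_iff_one_lt.2 h10
  omega

end Ono
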