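import Pool.Agent.Ono.Arith
import Pool.Agent.Ono.Sol

/-!
The restrictions on discriminants with an ideal class of order greater than two and a small Ono
invariant.
-/

set_option autoImplicit false

open NumberField Module ArithmeticFunction nonZeroDivisors

namespace Ono

variable {K : Type*} [Field K] [NumberField K] {ω : 𝓞 K}

theorem squarefree_neg {a : ℤ} : Squarefree (-a) ↔ Squarefree a := by
  constructor
  · intro h x hx
    exact h x (hx.neg_right)
  · intro h x hx
    exact h x ((dvd_neg (a := x * x) (b := a)).1 hx)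

theorem card_eq {m : ℕ} (hm : Squarefree m) : m.primeFactors.card = cardFactors m := by
  rw [← (cardDistinctFactors_eq_cardFactors_iff_squarefree hm.ne_zero).2 hm,
    cardDistinctFactors_apply, Nat.primeFactors, List.card_toFinset]

theorem fund_even {m : ℕ} (h4 : m % 4 = 1 ∨ m % 4 = 2) (hm : Squarefree m) :
    Fund 0 (m : ℤ) := by
  intro l hl hd b hb
  have hlZ : Prime (l : ℤ) := Nat.prime_iff_prime_int.1 hl
  have hb' : (l : ℤ) ^ 2 ∣ b ^ 2 + m := by
    have : b ^ 2 + 0 * b + (m : ℤ) = b ^ 2 + m := by ring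
    rwa [this] at hb
  by_cases h2 : l = 2
  · subst h2
    have h3 : (4 : ℤ) ∣ b ^ 2 + m := by
      have : ((2 : ℕ) : ℤ) ^ 2 = 4 := by norm_num
      rwa [this] at hb'
    rcases Int.even_or_odd' b with ⟨c, hc | hc⟩
    · rw [hc] at h3
      have h5 : (2 * c) ^ 2 + (m : ℤ) = 4 * c ^ 2 + m := by ring
      rw [h5] at h3
      generalize c ^ 2 = e at h3
      omega
    · rw [hc] at h3
      have h5 : (2 * c + 1) ^ 2 + (m : ℤ) = 4 * (c ^ 2 + c) + 1 + m := by ring
      rw [h5] at h3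
      generalize c ^ 2 + c = e at h3
      omega
  · have h3 : (l : ℤ) ∣ m := by
      have h5 : (0 : ℤ) ^ 2 - 4 * (m : ℤ) = -(2 * (2 * m)) := by ring
      rw [h5, dvd_neg] at hd
      have h6 : ¬ (l : ℤ) ∣ 2 := by
        intro h7
        have h8 : l ∣ 2 := by exact_mod_cast h7
        exact h2 ((Nat.prime_dvd_prime_iff_eq hl Nat.prime_two).1 h8)
      exact (hlZ.dvd_or_dvd ((hlZ.dvd_or_dvd hd).resolve_left h6)).resolve_left h6
    have h4 : (l : ℤ) ∣ b := by
      apply hlZ.dvd_of_dvd_pow (n := 2)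
      have h5 : b ^ 2 = (b ^ 2 + m) - m := by ring
      rw [h5]
      exact dvd_sub ((dvd_pow_self _ two_ne_zero).trans hb') h3
    have h5 : (l : ℤ) ^ 2 ∣ m := by
      have h6 : (m : ℤ) = (b ^ 2 + m) - b ^ 2 := by ring
      rw [h6]
      exact dvd_sub hb' (pow_dvd_pow_of_dvd h4 2)
    have h6 : l * l ∣ m := by
      have : ((l * l : ℕ) : ℤ) ∣ (m : ℤ) := by
        push_cast
        rw [← pow_two]
        exact h5
      exact_mod_cast this
    have h7 := hm l h6
    rw [Nat.isUnit_iff] at h7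
    exact hl.one_lt.ne' h7

theorem fund_odd {m n : ℕ} (hn : 4 * n = 1 + m) (hm : Squarefree m) : Fund 1 (n : ℤ) := by
  intro l hl hd b hb
  have hlZ : Prime (l : ℤ) := Nat.prime_iff_prime_int.1 hl
  have hn' : (4 : ℤ) * n = 1 + m := by exact_mod_cast hn
  have h3 : (l : ℤ) ∣ m := by
    have h5 : (1 : ℤ) ^ 2 - 4 * (n : ℤ) = -(m : ℤ) := by linarith
    rw [h5, dvd_neg] at hd
    exact hd
  have h4F : (l : ℤ) ^ 2 ∣ (2 * b + 1) ^ 2 + m := by
    have h5 : (2 * b + 1) ^ 2 + (m : ℤ) = 4 * (b ^ 2 + 1 * b + n) := by linear_combination -hn'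
    rw [h5]
    exact hb.mul_left 4
  have h4 : (l : ℤ) ∣ 2 * b + 1 := by
    apply hlZ.dvd_of_dvd_pow (n := 2)
    have h5 : (2 * b + 1) ^ 2 = ((2 * b + 1) ^ 2 + m) - (m : ℤ) := by ring
    rw [h5]
    exact dvd_sub ((dvd_pow_self _ two_ne_zero).trans h4F) h3
  have h5 : (l : ℤ) ^ 2 ∣ m := by
    have h6 : (m : ℤ) = ((2 * b + 1) ^ 2 + m) - (2 * b + 1) ^ 2 := by ring
    rw [h6]
    exact dvd_sub h4F (pow_dvd_pow_of_dvd h4 2)
  have h6 : l * l ∣ m := by
    have : ((l * l : ℕ) : ℤ) ∣ (m : ℤ) := by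
      push_cast
      rw [← pow_two]
      exact h5
    exact_mod_cast this
  have h7 := hm l h6
  rw [Nat.isUnit_iff] at h7
  exact hl.one_lt.ne' h7

theorem Least.isLeast {I : Ideal (𝓞 K)} {p : ℕ} (hI : Least I p) :
    IsLeast {q : ℕ | ∃ I : (Ideal (𝓞 K))⁰, ClassGroup.mk0 I ^ 2 ≠ 1 ∧
      Ideal.absNorm (I : Ideal (𝓞 K)) = q} p := by
  constructor
  · have h0 : I ∈ (Ideal (𝓞 K))⁰ := by
      apply mem_nonZeroDivisors_of_ne_zero
      rintro rfl
      have h1 := hI.norm
      have h2 : Ideal.absNorm (0 : Ideal (𝓞 K)) = 0 := map_zero _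
      rw [h2] at h1
      exact hI.prime.ne_zero h1.symm
    exact ⟨⟨I, h0⟩, fun h => hI.not_am ((am_iff h0).2 h), hI.norm⟩
  · rintro q ⟨J, hJ, rfl⟩
    exact hI.least J (nonZeroDivisors.ne_zero J.2) fun h => hJ ((am_iff J.2).1 h)

/-- The product condition. -/
theorem prod_ge {t n : ℤ} {M : ℕ} (hM : t ^ 2 - 4 * n = -(M : ℤ)) {p : ℕ}
    (hp : p.Prime) (hd : ¬ (p : ℤ) ∣ t ^ 2 - 4 * n) (hsol : Sol t n p)
    (hval : ∀ x : ℕ, 4 * (x + 1) ≤ M →
      cardFactors ((x : ℤ) ^ 2 + t * x + n).natAbs ≤ M.primeFactors.card)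
    (T : Finset ℕ) (hT : T ⊆ M.primeFactors) :
    M ≤ 4 * (p ^ T.card * ∏ r ∈ M.primeFactors \ T, r) := by
  classical
  by_contra hcon
  push Not at hcon
  have hpr : ∀ r ∈ M.primeFactors \ T, r.Prime ∧ (r : ℤ) ∣ t ^ 2 - 4 * n := by
    intro r hr
    have h1 := (Finset.mem_sdiff.1 hr).1
    refine ⟨Nat.prime_of_mem_primeFactors h1, ?_⟩
    rw [hM, dvd_neg]
    exact_mod_cast Nat.dvd_of_mem_primeFactors h1
  have h1 : Sol t n (p ^ T.card * ∏ r ∈ M.primeFactors \ T, r) := by
    refine Sol.mul ?_ (hsol.pow hp hd _) (Sol.prod _ hpr)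
    apply Nat.Coprime.pow_left
    apply Nat.Coprime.prod_right
    intro r hr
    refine (Nat.coprime_primes hp (hpr r hr).1).2 ?_
    rintro rfl
    exact hd (hpr p hr).2
  have hprod : ∏ r ∈ M.primeFactors \ T, r ≠ 0 :=
    Finset.prod_ne_zero_iff.2 fun r hr => (hpr r hr).1.ne_zero
  have hpos : 0 < p ^ T.card * ∏ r ∈ M.primeFactors \ T, r :=
    Nat.pos_of_ne_zero (mul_ne_zero (pow_ne_zero _ hp.ne_zero) hprod)
  obtain ⟨x, hx1, hx2⟩ := h1.value hM hpos hcon
  have h2 := hval x hx1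
  have h3 : cardFactors (p ^ T.card * ∏ r ∈ M.primeFactors \ T, r) = M.primeFactors.card := by
    rw [cardFactors_mul (pow_ne_zero _ hp.ne_zero) hprod, cardFactors_apply_prime_pow hp]
    have h4 : ∀ S : Finset ℕ, (∀ r ∈ S, r.Prime) → cardFactors (∏ r ∈ S, r) = S.card := by
      intro S
      induction S using Finset.induction_on with
      | empty => simp
      | insert a S ha ih =>
        intro hS
        rw [Finset.prod_insert ha, Finset.card_insert_of_notMem ha, cardFactors_mul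
          (hS a (Finset.mem_insert_self a S)).ne_zero (Finset.prod_ne_zero_iff.2 fun r hr =>
            (hS r (Finset.mem_insert_of_mem hr)).ne_zero),
          cardFactors_apply_prime (hS a (Finset.mem_insert_self a S)),
          ih fun r hr => hS r (Finset.mem_insert_of_mem hr)]
        ring
    rw [h4 _ fun r hr => (hpr r hr).1, Finset.card_sdiff_of_subset hT]
    have := Finset.card_le_card hT
    omega
  omega

/-- Odd discriminants. -/
theorem main_odd {m n : ℕ} (h : QD K 1 (n : ℤ) ω) (hn : 4 * n = 1 + m) (hsq : Squarefree m)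
    (hc : ¬ ∀ c : ClassGroup (𝓞 K), c ^ 2 = 1)
    (hval : ∀ x : ℕ, 4 * (x + 1) ≤ m → cardFactors (x ^ 2 + x + n) ≤ m.primeFactors.card) :
    ∃ p : ℕ, p.Prime ∧
      IsLeast {q : ℕ | ∃ I : (Ideal (𝓞 K))⁰, ClassGroup.mk0 I ^ 2 ≠ 1 ∧
        Ideal.absNorm (I : Ideal (𝓞 K)) = q} p ∧ 3 * p ^ 2 ≤ m ∧
      (∀ P : ℕ, P.Prime → P ∣ m → P < 2 * p) ∧
      ∀ T ⊆ m.primeFactors, m ≤ 4 * (p ^ T.card * ∏ r ∈ m.primeFactors \ T, r) := by
  have hf := fund_odd hn hsq
  obtain ⟨I, p, hI⟩ := h.exists_least hc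
  have hdisc : (1 : ℤ) ^ 2 - 4 * (n : ℤ) = -(m : ℤ) := by
    have : (4 : ℤ) * n = 1 + m := by exact_mod_cast hn
    linarith
  refine ⟨p, hI.prime, hI.isLeast, boundC h hn hI, ?_, ?_⟩
  · intro P hP hPm
    by_contra hcon
    push Not at hcon
    obtain ⟨r, hr⟩ := hPm
    obtain ⟨x, hx1, hx2⟩ := caseC h hf hn hI hr hP hcon
    have h1 := hval x hx1
    rw [card_eq hsq] at h1
    omega
  · intro T hT
    obtain ⟨b, hb⟩ := exists_int hI.prime hI.norm ω
    have h1 := h.norm_dvd hb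
    rw [hI.norm] at h1
    refine prod_ge hdisc hI.prime (hI.not_dvd h hf) ⟨b, h1⟩ ?_ T hT
    intro x hx
    have h2 := hval x hx
    have h3 : ((x : ℤ) ^ 2 + 1 * x + n).natAbs = x ^ 2 + x + n := by
      have : (x : ℤ) ^ 2 + 1 * x + n = ((x ^ 2 + x + n : ℕ) : ℤ) := by
        push_cast
        ring
      rw [this, Int.natAbs_natCast]
    rw [h3]
    exact h2

theorem prod_lt_pow {S : Finset ℕ} {c p : ℕ} (h : ∀ r ∈ S, c * r ≤ p) :
    c ^ S.card * ∏ r ∈ S, r ≤ p ^ S.card := by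
  rw [← Finset.prod_const, ← Finset.prod_mul_distrib, ← Finset.prod_const]
  exact Finset.prod_le_prod' h

theorem primeFactors_four_mul {m : ℕ} (hm : m ≠ 0) :
    (4 * m).primeFactors = insert 2 m.primeFactors := by
  rw [Nat.primeFactors_mul (by norm_num) hm]
  have : (4 : ℕ).primeFactors = {2} := by
    have h4 : (4 : ℕ) = 2 ^ 2 := by norm_num
    rw [h4, Nat.primeFactors_prime_pow two_ne_zero Nat.prime_two]
  rw [this]
  rfl

/-- Even discriminants. -/
theorem main_even {m : ℕ} (h : QD K 0 (m : ℤ) ω) (h4 : m % 4 = 1 ∨ m % 4 = 2)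
    (hsq : Squarefree m) (hc : ¬ ∀ c : ClassGroup (𝓞 K), c ^ 2 = 1)
    (hval : ∀ x : ℕ, 4 * (x + 1) ≤ 4 * m →
      cardFactors (x ^ 2 + m) ≤ (4 * m).primeFactors.card) :
    ∃ p : ℕ, p.Prime ∧
      IsLeast {q : ℕ | ∃ I : (Ideal (𝓞 K))⁰, ClassGroup.mk0 I ^ 2 ≠ 1 ∧
        Ideal.absNorm (I : Ideal (𝓞 K)) = q} p ∧ p ^ 2 < m ∧
      (∀ P : ℕ, P.Prime → P ∣ 4 * m → P < p) ∧ 4 ≤ (4 * m).primeFactors.card ∧
      (m % 2 = 0 → ∀ P : ℕ, P.Prime → P ∣ 4 * m → 2 * P < p) ∧
      ∀ T ⊆ (4 * m).primeFactors, 4 * m ≤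
        4 * (p ^ T.card * ∏ r ∈ (4 * m).primeFactors \ T, r) := by
  have hf := fund_even h4 hsq
  obtain ⟨I, p, hI⟩ := h.exists_least hc
  have hp := hI.prime
  have hm0 : m ≠ 0 := hsq.ne_zero
  have hdisc : (0 : ℤ) ^ 2 - 4 * (m : ℤ) = -((4 * m : ℕ) : ℤ) := by
    push_cast
    ring
  have hnd := hI.not_dvd h hf
  have hnd4 : ¬ p ∣ 4 * m := by
    intro hd
    apply hnd
    rw [hdisc, dvd_neg]
    exact_mod_cast hd
  have hp2 : 2 < p := by
    have h1 := hp.two_le
    have h2 : p ≠ 2 := by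
      rintro rfl
      exact hnd4 ⟨2 * m, by ring⟩
    omega
  have hpf := primeFactors_four_mul hm0
  have hbound := boundA h hf hI
  have hval' : ∀ x : ℕ, x + 1 ≤ m → cardFactors (x ^ 2 + m) ≤ (4 * m).primeFactors.card :=
    fun x hx => hval x (by omega)
  have hm2 : ∀ P : ℕ, P.Prime → P ∣ 4 * m → P = 2 ∨ P ∣ m := by
    intro P hP hd
    rcases (Nat.Prime.dvd_mul hP).1 hd with h5 | h5
    · left
      have h6 : P ∣ 2 ^ 2 := h5
      exact (Nat.prime_dvd_prime_iff_eq hP Nat.prime_two).1 (hP.dvd_of_dvd_pow h6)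
    · exact Or.inr h5
  -- even m
  have heven : m % 2 = 0 → ∀ P : ℕ, P.Prime → P ∣ 4 * m → 2 * P < p := by
    intro hm2' P hP hd
    have hPm : P ∣ m := by
      rcases hm2 P hP hd with h5 | h5
      · rw [h5]
        omega
      · exact h5
    by_contra hcon
    have hne : p ≠ 2 * P := by
      intro h5
      have h6 : 2 ∣ p := ⟨P, h5⟩
      have h7 := (Nat.prime_dvd_prime_iff_eq Nat.prime_two hp).1 h6
      omega
    have hlt : p < 2 * P := by omega
    obtain ⟨r, hr⟩ := hPm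
    obtain ⟨x, hx1, hx2⟩ := caseB h hf (Nat.pos_of_ne_zero hm0) hI hr hP hlt
    have h5 := hval' x hx1
    have h6 : (4 * m).primeFactors = m.primeFactors := by
      rw [hpf]
      apply Finset.insert_eq_of_mem
      rw [Nat.mem_primeFactors]
      exact ⟨Nat.prime_two, by omega, hm0⟩
    rw [h6, card_eq hsq] at h5
    omega
  have hcardodd : m % 2 = 1 → (4 * m).primeFactors.card = m.primeFactors.card + 1 := by
    intro hm1
    rw [hpf, Finset.card_insert_of_notMem]
    intro h5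
    have := Nat.dvd_of_mem_primeFactors h5
    omega
  have hall : ∀ P : ℕ, P.Prime → P ∣ 4 * m → P < p := by
    intro P hP hd
    rcases Nat.mod_two_eq_zero_or_one m with hm' | hm'
    · have := heven hm' P hP hd
      omega
    · rcases hm2 P hP hd with h5 | h5
      · omega
      · by_contra hcon
        have hne : p ≠ P := by
          rintro rfl
          exact hnd4 hd
        obtain ⟨r, hr⟩ := h5
        obtain ⟨x, hx1, hx2⟩ := caseA h hf hm' hI hr hP (by omega)
        have h6 := hval' x hx1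
        rw [hcardodd hm', card_eq hsq] at h6
        omega
  have hprodm : ∏ r ∈ m.primeFactors, r = m := Nat.prod_primeFactors_of_squarefree hsq
  have hfour : 4 ≤ (4 * m).primeFactors.card := by
    by_contra hcon
    rcases Nat.mod_two_eq_zero_or_one m with hm' | hm'
    · have h6 : (4 * m).primeFactors = m.primeFactors := by
        rw [hpf]
        apply Finset.insert_eq_of_mem
        rw [Nat.mem_primeFactors]
        exact ⟨Nat.prime_two, by omega, hm0⟩
      rw [h6] at hcon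
      have h2mem : 2 ∈ m.primeFactors := by
        rw [Nat.mem_primeFactors]
        exact ⟨Nat.prime_two, by omega, hm0⟩
      have h7 := Finset.mul_prod_erase m.primeFactors (fun r => r) h2mem
      rw [hprodm] at h7
      have h8 : 2 ^ (m.primeFactors.erase 2).card * ∏ r ∈ m.primeFactors.erase 2, r ≤
          p ^ (m.primeFactors.erase 2).card := by
        apply prod_lt_pow
        intro r hr
        have h9 := Finset.mem_of_mem_erase hr
        have := heven hm' r (Nat.prime_of_mem_primeFactors h9)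
          ((Nat.dvd_of_mem_primeFactors h9).mul_left 4)
        omega
      have h9 : (m.primeFactors.erase 2).card ≤ 2 := by
        rw [Finset.card_erase_of_mem h2mem]
        omega
      set X := ∏ r ∈ m.primeFactors.erase 2, r with hX
      have h7' : 2 * X = m := h7
      have h10 : (m.primeFactors.erase 2).card = 0 ∨ (m.primeFactors.erase 2).card = 1 ∨
          (m.primeFactors.erase 2).card = 2 := by omega
      rcases h10 with h10 | h10 | h10
      · rw [h10, pow_zero, pow_zero, one_mul] at h8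
        nlinarith
      · rw [h10, pow_one, pow_one] at h8
        nlinarith
      · rw [h10] at h8
        nlinarith
    · have h6 := hcardodd hm'
      have h8 : 1 ^ m.primeFactors.card * ∏ r ∈ m.primeFactors, r ≤ p ^ m.primeFactors.card := by
        apply prod_lt_pow
        intro r hr
        have := hall r (Nat.prime_of_mem_primeFactors hr)
          ((Nat.dvd_of_mem_primeFactors hr).mul_left 4)
        omega
      rw [one_pow, one_mul, hprodm] at h8
      have h9 : p ^ m.primeFactors.card ≤ p ^ 2 := Nat.pow_le_pow_right hp.pos (by omega)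
      omega
  refine ⟨p, hp, hI.isLeast, hbound, hall, hfour, heven, ?_⟩
  intro T hT
  obtain ⟨b, hb⟩ := exists_int hI.prime hI.norm ω
  have h1 := h.norm_dvd hb
  rw [hI.norm] at h1
  refine prod_ge hdisc hI.prime hnd ⟨b, h1⟩ ?_ T hT
  intro x hx
  have h2 := hval x hx
  have h3 : ((x : ℤ) ^ 2 + 0 * x + m).natAbs = x ^ 2 + m := by
    have : (x : ℤ) ^ 2 + 0 * x + m = ((x ^ 2 + m : ℕ) : ℤ) := by
      push_cast
      ring
    rw [this, Int.natAbs_natCast]
  rw [h3]
  exact h2

end Ono
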